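import Pool.Agent.R3B.StmtsB

set_option autoImplicit false

/-! Row HRD of squad R3B (MP_be01ff_an): `f(|x|)/|x|` is in `H^1_0` of the ball. -/

namespace Pool.Agent.R3B.H62

open Set Filter Topology MeasureTheory InnerProductSpace
open scoped InnerProductSpace ENNReal
open Pool.Agent.BE01F
open Pool.Agent.R3B

theorem rf_grad {ψ : ℝ → ℝ} {δ : ℝ} (hδ : 0 < δ) (hz : ∀ r, r < δ → ψ r = 0)
    (hd : Differentiable ℝ ψ) (x : E 3) : gradient (rf ψ) x = rg ψ (deriv ψ) x := by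
  by_cases hx : x = 0
  · subst hx
    have hev : rf ψ =ᶠ[𝓝 (0 : E 3)] fun _ => (0 : ℝ) := by
      filter_upwards [Metric.ball_mem_nhds (0 : E 3) hδ] with y hy
      rw [mem_ball_zero_iff] at hy
      show ψ ‖y‖ / ‖y‖ = 0
      rw [hz _ hy, zero_div]
    have h1 : HasFDerivAt (rf ψ) (0 : E 3 →L[ℝ] ℝ) (0 : E 3) :=
      (hasFDerivAt_const (0 : ℝ) (0 : E 3)).congr_of_eventuallyEq hev
    have h2 : HasGradientAt (rf ψ) (0 : E 3) (0 : E 3) := by
      rw [hasGradientAt_iff_hasFDerivAt, map_zero]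
      exact h1
    rw [h2.gradient]
    simp [rg]
  · have hx0 : ‖x‖ ≠ 0 := norm_ne_zero_iff.2 hx
    have hr : HasDerivAt (fun r => ψ r / r)
        ((deriv ψ ‖x‖ * ‖x‖ - ψ ‖x‖ * 1) / ‖x‖ ^ 2) ‖x‖ :=
      (hd _).hasDerivAt.div (hasDerivAt_id _) hx0
    have h1 := Pool.Agent.Helper72_Shell.hasFDerivAt_radial hx hr
    have h2 : HasGradientAt (rf ψ) (rg ψ (deriv ψ) x) x := by
      rw [hasGradientAt_iff_hasFDerivAt]
      have he : (toDual ℝ (E 3)) (rg ψ (deriv ψ) x) =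
          ((deriv ψ ‖x‖ * ‖x‖ - ψ ‖x‖ * 1) / ‖x‖ ^ 2 / ‖x‖) • innerSL ℝ x := by
        ext v
        show ⟪rg ψ (deriv ψ) x, v⟫_ℝ = _
        unfold rg
        rw [inner_smul_left]
        simp only [ContinuousLinearMap.smul_apply, innerSL_apply_apply, smul_eq_mul,
          conj_trivial]
        field_simp
      rw [he]
      exact h1
    exact h2.gradient

theorem rf_smooth {ψ : ℝ → ℝ} {δ : ℝ} (hδ : 0 < δ) (hz : ∀ r, r < δ → ψ r = 0)
    (hd : ContDiff ℝ ((⊤ : ℕ∞) : WithTop ℕ∞) ψ) :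
    ContDiff ℝ ((⊤ : ℕ∞) : WithTop ℕ∞) (rf ψ) := by
  rw [contDiff_iff_contDiffAt]
  intro x
  by_cases hx : x = 0
  · subst hx
    have hev : rf ψ =ᶠ[𝓝 (0 : E 3)] fun _ => (0 : ℝ) := by
      filter_upwards [Metric.ball_mem_nhds (0 : E 3) hδ] with y hy
      rw [mem_ball_zero_iff] at hy
      show ψ ‖y‖ / ‖y‖ = 0
      rw [hz _ hy, zero_div]
    exact contDiffAt_const.congr_of_eventuallyEq hev
  · have hn := contDiffAt_norm (n := ((⊤ : ℕ∞) : WithTop ℕ∞)) ℝ hx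
    exact (hd.contDiffAt.comp x hn).div hn (norm_ne_zero_iff.2 hx)

theorem hrd (h1 : NrmStmt) (h2 : NrvStmt) (h3 : HdyStmt) (h4 : OneStmt) : HrdStmt := by
  intro ℓ f g hℓ hg hfg hfl
  have hcf : ∀ (f g : ℝ → ℝ), ContinuousOn g (Icc 0 ℓ) →
      (∀ r, 0 ≤ r → r ≤ ℓ → f r = ∫ ρ in (0 : ℝ)..r, g ρ) → ContinuousOn f (Icc 0 ℓ) := by
    intro f g hg hfg
    have h := intervalIntegral.continuousOn_primitive_interval
      (μ := volume) (f := g) (a := 0) (b := ℓ)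
      (by rw [uIcc_of_le hℓ.le]; exact hg.integrableOn_Icc)
    rw [uIcc_of_le hℓ.le] at h
    exact h.congr fun r hr => hfg r hr.1 hr.2
  refine ⟨(h1 ℓ f hℓ (hcf f g hg hfg)).1, (h2 ℓ f g hℓ hg hfg).1, ?_⟩
  intro ε hε
  obtain ⟨δ, hδ0, hδε⟩ := ENNReal.lt_iff_exists_nnreal_btwn.1 hε
  have hδ : (0 : ℝ) < δ := by exact_mod_cast hδ0
  have hpi := Real.pi_pos
  obtain ⟨η, hη, hη1, hη2⟩ : ∃ η : ℝ, 0 < η ∧ 4 * Real.pi * η ≤ (δ : ℝ) ^ 2 ∧
      4 * Real.pi * (ℓ ^ 2 * η) ≤ (δ : ℝ) ^ 2 := by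
    refine ⟨(δ : ℝ) ^ 2 / (4 * Real.pi * (1 + ℓ ^ 2)), by positivity, ?_, ?_⟩
    · have h : 4 * Real.pi * ((δ : ℝ) ^ 2 / (4 * Real.pi * (1 + ℓ ^ 2))) =
          (δ : ℝ) ^ 2 / (1 + ℓ ^ 2) := by
        field_simp
      rw [h]
      exact div_le_self (by positivity) (by nlinarith [sq_nonneg ℓ])
    · have h : 4 * Real.pi * (ℓ ^ 2 * ((δ : ℝ) ^ 2 / (4 * Real.pi * (1 + ℓ ^ 2)))) =
          (δ : ℝ) ^ 2 * (ℓ ^ 2 / (1 + ℓ ^ 2)) := by
        field_simp
      rw [h]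
      have : ℓ ^ 2 / (1 + ℓ ^ 2) ≤ 1 := by
        rw [div_le_one (by positivity)]
        linarith
      calc (δ : ℝ) ^ 2 * (ℓ ^ 2 / (1 + ℓ ^ 2)) ≤ (δ : ℝ) ^ 2 * 1 :=
            mul_le_mul_of_nonneg_left this (by positivity)
        _ = (δ : ℝ) ^ 2 := mul_one _
  obtain ⟨ψ, hψs, hψc, hψt, hψe⟩ := h4 ℓ η g hℓ hη hg
    (by rw [← hfg ℓ hℓ.le le_rfl]; exact hfl)
  -- the function vanishes near `0` and above `ℓ`
  have hψ0 : ∀ r, r ∉ Ioo 0 ℓ → ψ r = 0 := fun r hr =>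
    image_eq_zero_of_notMem_tsupport fun h => hr (hψt h)
  obtain ⟨δ1, hδ1, hz⟩ : ∃ δ1 : ℝ, 0 < δ1 ∧ ∀ r, r < δ1 → ψ r = 0 := by
    have h0 : (0 : ℝ) ∉ tsupport ψ := fun h => lt_irrefl _ (hψt h).1
    have hopen : (tsupport ψ)ᶜ ∈ 𝓝 (0 : ℝ) := (isClosed_tsupport ψ).isOpen_compl.mem_nhds h0
    obtain ⟨d, hd, hb⟩ := Metric.mem_nhds_iff.1 hopen
    refine ⟨d, hd, fun r hr => ?_⟩
    by_cases h : 0 < r
    · refine image_eq_zero_of_notMem_tsupport (hb ?_)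
      rw [Metric.mem_ball, Real.dist_eq, sub_zero, abs_of_pos h]
      exact hr
    · exact hψ0 r fun h' => h h'.1
  have hdiff : Differentiable ℝ ψ := hψs.differentiable (by simp)
  have hderc : Continuous (deriv ψ) := hψs.continuous_deriv (by simp)
  have hTest : Test (Bl ℓ) (rf ψ) := by
    refine ⟨rf_smooth hδ1 hz hψs, ?_, ?_⟩
    · refine HasCompactSupport.intro (isCompact_closedBall (0 : E 3) ℓ) ?_
      intro x hx
      rw [mem_closedBall_zero_iff, not_le] at hx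
      show ψ ‖x‖ / ‖x‖ = 0
      rw [hψ0 _ (fun h => absurd h.2 (not_lt.2 hx.le)), zero_div]
    · have hcl : IsClosed {x : E 3 | ‖x‖ ∈ tsupport ψ} :=
        (isClosed_tsupport ψ).preimage continuous_norm
      have hsub : tsupport (rf ψ) ⊆ {x : E 3 | ‖x‖ ∈ tsupport ψ} := by
        refine closure_minimal ?_ hcl
        intro x hx
        refine subset_tsupport ψ ?_
        rw [Function.mem_support] at hx ⊢
        intro h0
        apply hx
        show ψ ‖x‖ / ‖x‖ = 0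
        rw [h0, zero_div]
      intro x hx
      exact (hψt (hsub hx)).2
  refine ⟨rf ψ, hTest, ?_⟩
  -- the difference
  have hg1 : ContinuousOn (fun r => g r - deriv ψ r) (Icc 0 ℓ) := hg.sub hderc.continuousOn
  have hψi : ∀ r, ψ r = ∫ ρ in (0 : ℝ)..r, deriv ψ ρ := by
    intro r
    rw [intervalIntegral.integral_deriv_eq_sub (fun x _ => hdiff x)
      (hderc.intervalIntegrable _ _), hψ0 0 (fun h => lt_irrefl _ h.1), sub_zero]
  have hf1 : ∀ r, 0 ≤ r → r ≤ ℓ → f r - ψ r = ∫ ρ in (0 : ℝ)..r, (g ρ - deriv ψ ρ) := by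
    intro r hr hr'
    rw [intervalIntegral.integral_sub, ← hfg r hr hr', ← hψi r]
    · exact (hg.mono (by rw [uIcc_of_le hr]; exact Icc_subset_Icc le_rfl hr')).intervalIntegrable
    · exact hderc.intervalIntegrable _ _
  have hf1l : f ℓ - ψ ℓ = 0 := by
    rw [hfl, hψ0 ℓ (fun h => lt_irrefl _ h.2), sub_zero]
  have hcf1 : ContinuousOn (fun r => f r - ψ r) (Icc 0 ℓ) :=
    hcf (fun r => f r - ψ r) _ hg1 hf1
  have hN := (h1 ℓ (fun r => f r - ψ r) hℓ hcf1).2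
  have hV := (h2 ℓ (fun r => f r - ψ r) (fun r => g r - deriv ψ r) hℓ hg1 hf1).2
  have hH := h3 ℓ (fun r => f r - ψ r) (fun r => g r - deriv ψ r) hℓ hg1 hf1
  simp only [hf1l] at hH
  have hHe : ∫ r in (0 : ℝ)..ℓ, ((g r - deriv ψ r) - (f r - ψ r) / r) ^ 2 ≤ η := by
    rw [hH]
    simpa using hψe
  have hsq : ∀ r, 0 ≤ r → r ≤ ℓ → (f r - ψ r) ^ 2 ≤ ℓ * η := by
    intro r hr hr'
    rcases hr.eq_or_lt with h0 | h0
    · rw [hf1 r hr hr', ← h0, intervalIntegral.integral_same, zero_pow two_ne_zero]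
      exact (mul_pos hℓ hη).le
    · have h := h3 r (fun r => f r - ψ r) (fun r => g r - deriv ψ r) h0
        (hg1.mono (Icc_subset_Icc le_rfl hr')) (fun s hs hs' => hf1 s hs (hs'.trans hr'))
      have hnn : 0 ≤ ∫ s in (0 : ℝ)..r, ((g s - deriv ψ s) - (f s - ψ s) / s) ^ 2 :=
        intervalIntegral.integral_nonneg hr fun s _ => sq_nonneg _
      rw [h] at hnn
      have hmono : ∫ s in (0 : ℝ)..r, (g s - deriv ψ s) ^ 2 ≤
          ∫ s in (0 : ℝ)..ℓ, (g s - deriv ψ s) ^ 2 := by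
        refine intervalIntegral.integral_mono_interval le_rfl hr hr' ?_ ?_
        · exact Eventually.of_forall fun s => sq_nonneg _
        · exact ((hg1.pow 2).mono (by rw [uIcc_of_le hℓ.le])).intervalIntegrable
      have h5 : (f r - ψ r) ^ 2 / r ≤ η := by linarith
      rw [div_le_iff₀ h0] at h5
      calc (f r - ψ r) ^ 2 ≤ η * r := h5
        _ ≤ η * ℓ := mul_le_mul_of_nonneg_left hr' hη.le
        _ = ℓ * η := mul_comm _ _
  have hNe : ∫ r in (0 : ℝ)..ℓ, (f r - ψ r) ^ 2 ≤ ℓ ^ 2 * η := by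
    have h : ∫ r in (0 : ℝ)..ℓ, (f r - ψ r) ^ 2 ≤ ∫ _r in (0 : ℝ)..ℓ, ℓ * η := by
      refine intervalIntegral.integral_mono_on hℓ.le ?_ ?_ fun r hr => hsq r hr.1 hr.2
      · exact ((hcf1.pow 2).mono (by rw [uIcc_of_le hℓ.le])).intervalIntegrable
      · exact intervalIntegrable_const
    rw [intervalIntegral.integral_const, sub_zero, smul_eq_mul] at h
    calc _ ≤ ℓ * (ℓ * η) := h
      _ = ℓ ^ 2 * η := by ring
  have hfin : ∀ a : ℝ, 4 * Real.pi * a ≤ (δ : ℝ) ^ 2 →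
      ENNReal.ofReal (Real.sqrt (4 * Real.pi * a)) < ε := by
    intro a ha
    refine lt_of_le_of_lt ?_ hδε
    rw [← ENNReal.ofReal_coe_nnreal]
    refine ENNReal.ofReal_le_ofReal ?_
    rw [← Real.sqrt_sq hδ.le]
    exact Real.sqrt_le_sqrt ha
  constructor
  · have he : (fun x => rf f x - rf ψ x) = rf (fun r => f r - ψ r) := by
      funext x
      unfold rf
      rw [sub_div]
    rw [he, hN]
    refine hfin _ ((mul_le_mul_of_nonneg_left hNe (by positivity)).trans hη2)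
  · have he : (fun x => rg f g x - gradient (rf ψ) x) =
        rg (fun r => f r - ψ r) (fun r => g r - deriv ψ r) := by
      funext x
      rw [rf_grad hδ1 hz hdiff x]
      unfold rg
      rw [← sub_smul]
      congr 1
      ring
    rw [he, hV]
    refine hfin _ ((mul_le_mul_of_nonneg_left hHe (by positivity)).trans hη1)

end Pool.Agent.R3B.H62
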